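import Pool.Agent.Helper65_Leo.MainFam

/-!
# Leopoldt's conjecture for all but finitely many members of one-parameter families

Let `P` be a monic polynomial over an order `O` of a number field `F`, let `Q` be of smaller degree
with `P`, `Q` generating the unit ideal of `O[X]`, and let `g i` be nonconstant divisors of `Q`,
pairwise coprime over `F`. If `P(θ) = t Q(θ)` with `t` in `O`, then the `g i (θ)` are units.

The result: for every prime `p`, Leopoldt's conjecture at `p` holds for all fields `K = F(θ)`,
`[K : F] = deg P`, `P(θ) = t Q(θ)`, whose unit rank is at most the number of the `g i`, for all but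
finitely many parameters `t` in `O`.

Illustration (`integerFamilies` below): over the integers, when `Q` is the product of the `g i`, `deg P = deg Q + 1` and every `g i`
is linear, or quadratic without real roots, the unit rank hypothesis holds automatically for all but
finitely many integers `t`: `P - t Q` is irreducible, and the fields have the signature
`(1 + number of linear g i, number of quadratic g i)`; moreover they fall into infinitely many
isomorphism classes.

The proof: a linear relation over the `p`-adic integers between the logarithms of the `g i (θ)` for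
parameters `t` accumulating at some `t₀` gives, by analytic continuation along the branches of the
curve `P(x) = t Q(x)` in `ℂ_[p]`, an algebraic dependence of the primitives `log g i (x_j)`, which is
excluded by the theorem of Kolchin and Ostrowski together with a residue computation at the poles
of `t`. Compactness of the closure of `O` in `ℂ_[p]` concludes.

`LeopoldtAt K p`, defined in `Pool/Agent/Helper85_Leo/Defs.lean`, is the statement of the frozen
statement S17123 for the fixed field `K` and prime `p`.
-/

set_option autoImplicit false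

open Polynomial NumberField
open Pool.Agent.Helper85_Leo (LeopoldtAt)

namespace Pool.Agent.Helper65_Leo.Archive.CofiniteFamilies

theorem result (p : ℕ) [Fact p.Prime] (O F : Type) [CommRing O] [IsDomain O] [Module.Finite ℤ O]
    [Field F] [NumberField F] [Algebra O F] [FaithfulSMul O F]
    (P Q : O[X]) (ι : Type) [Fintype ι] (g : ι → O[X])
    (hP : P.Monic) (hdeg : Q.natDegree < P.natDegree) (hPQ : IsCoprime P Q)
    (hg : ∀ i, 0 < (g i).natDegree) (hgQ : ∀ i, g i ∣ Q)
    (hcop : ∀ i l, i ≠ l →
      IsCoprime ((g i).map (algebraMap O F)) ((g l).map (algebraMap O F))) :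
    {t : O | ∃ (K : Type) (_ : Field K) (_ : NumberField K) (_ : Algebra F K) (θ : K),
      aeval θ ((P - C t * Q).map (algebraMap O F)) = 0 ∧
      IntermediateField.adjoin F {θ} = ⊤ ∧ Module.finrank F K = P.natDegree ∧
      Units.rank K ≤ Fintype.card ι ∧ ¬ LeopoldtAt K p}.Finite :=
  Helper65_Leo.leopoldt_cofinite p hP hdeg hPQ g hg hgQ hcop

/-- The families over the integers for which the unit rank hypothesis is automatic. -/
theorem integerFamilies (P : ℤ[X]) (ι : Type) [Fintype ι] (g : ι → ℤ[X])
    (h1 : P.Monic) (h2 : P.natDegree = (∏ i, g i).natDegree + 1) (h3 : IsCoprime P (∏ i, g i))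
    (h4 : ∀ i, Irreducible ((g i).map (Int.castRingHom ℝ)))
    (h5 : ∀ i l, i ≠ l → IsCoprime ((g i).map (Int.castRingHom ℚ))
        ((g l).map (Int.castRingHom ℚ))) :
    (∀ (p : ℕ) [Fact p.Prime],
      {t : ℤ | ¬ (Irreducible ((P - C t * ∏ i, g i).map (Int.castRingHom ℚ)) ∧
        ∀ (K : Type) [Field K] [NumberField K] (θ : K),
          IntermediateField.adjoin ℚ {θ} = ⊤ → aeval θ (P - C t * ∏ i, g i) = 0 →
          InfinitePlace.nrRealPlaces K = Nat.card {i // (g i).natDegree = 1} + 1 ∧
          InfinitePlace.nrComplexPlaces K = Nat.card {i // (g i).natDegree = 2} ∧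
          ((∃ i, (g i).natDegree = 2) → ¬ IsGalois ℚ K) ∧ LeopoldtAt K p)}.Finite) ∧
    (Nonempty ι → ∀ (k : ℕ) (L : Fin k → Type) [∀ i, Field (L i)] [∀ i, NumberField (L i)]
      (t₀ : ℤ), ∃ t : ℤ, t₀ ≤ t ∧ ∀ (K : Type) [Field K] [NumberField K] (θ : K),
        IntermediateField.adjoin ℚ {θ} = ⊤ → aeval θ (P - C t * ∏ i, g i) = 0 →
        ∀ i, IsEmpty (K ≃+* L i)) := by
  refine ⟨fun p _ => ?_, fun hne k L _ _ t₀ =>
    Helper65_Leo.int_family_infinite h1 h2 h3 h4 (fun i l h => h5 i l h) hne k L t₀⟩
  classical
  refine (Helper65_Leo.int_family p h1 h2 h3 h4 (fun i l h => h5 i l h)).subset ?_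
  intro t ht hcon
  apply ht
  refine ⟨hcon.1, fun K _ _ θ hgen hroot => ?_⟩
  obtain ⟨h6, h7, h8⟩ := hcon.2 K θ hgen hroot
  rw [Nat.card_eq_fintype_card, Nat.card_eq_fintype_card]
  refine ⟨h6, h7, fun ⟨i, hi⟩ => ?_, h8⟩
  apply Helper65_Leo.not_isGalois_of_mixed
  · omega
  · rw [h7, Fintype.card_pos_iff]
    exact ⟨⟨i, hi⟩⟩

end Pool.Agent.Helper65_Leo.Archive.CofiniteFamilies
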